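import Pool.Agent.helper90.IV.Spec

/-!
# MP_26dbae_co, row NP: powers
-/

set_option autoImplicit false

namespace Pool.Agent.helper95.IV

open Pool.Agent.IV

lemma np_aux {ρ K n d : ℝ} (hK : 1 ≤ K) (hn : 1 ≤ n) (hd : K * n ^ (1 - 1 / ρ) ≤ d) (e : ℕ)
    (he : 1 ≤ e) (t : ℝ) (ht : t ≤ e * (1 - 1 / ρ)) : K * n ^ t ≤ d ^ e := by
  have hn0 : 0 < n := by linarith
  have h1 : (K * n ^ (1 - 1 / ρ)) ^ e ≤ d ^ e := pow_le_pow_left₀ (by positivity) hd e
  refine le_trans ?_ h1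
  rw [mul_pow, ← Real.rpow_natCast (n ^ (1 - 1 / ρ)), ← Real.rpow_mul hn0.le]
  apply mul_le_mul
  · exact le_self_pow₀ hK (by omega)
  · apply Real.rpow_le_rpow_of_exponent_le hn
    linarith
  · positivity
  · positivity

theorem NP : NP_stmt := by
  intro ρ K n d s hρ hs hsρ hK hn hd
  have hn0 : 0 < n := by linarith
  have hρ0 : 0 < ρ := by linarith
  refine ⟨?_, ?_, ?_⟩
  · intro u e he heu
    have h1 : (e : ℝ) - u ≤ e * (1 - 1 / ρ) := by
      have h2 : (e : ℝ) / ρ ≤ u := by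
        rw [div_le_iff₀ hρ0]
        linarith
      have h3 : (e : ℝ) * (1 - 1 / ρ) = e - e / ρ := by ring
      rw [h3]
      linarith
    have h2 := np_aux hK hn hd e he _ h1
    have h3 : K * n ^ e = n ^ u * (K * n ^ ((e : ℝ) - u)) := by
      rw [Real.rpow_sub hn0, Real.rpow_natCast, Real.rpow_natCast]
      field_simp
    rw [h3]
    exact mul_le_mul_of_nonneg_left h2 (by positivity)
  · have h1 : (1 : ℝ) ≤ ((2 : ℕ) : ℝ) * (1 - 1 / ρ) := by
      have h2 : 1 / ρ ≤ 1 / 2 := one_div_le_one_div_of_le (by norm_num) hρ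
      push_cast
      linarith
    have h2 := np_aux hK hn hd 2 (by norm_num) 1 h1
    rwa [Real.rpow_one] at h2
  · have h1 : ((s - 2 : ℕ) : ℝ) ≤ ((s - 1 : ℕ) : ℝ) * (1 - 1 / ρ) := by
      have h2 : ((s - 2 : ℕ) : ℝ) = s - 2 := by
        rw [Nat.cast_sub (by omega)]; norm_num
      have h3 : ((s - 1 : ℕ) : ℝ) = s - 1 := by
        rw [Nat.cast_sub (by omega)]; norm_num
      have h4 : ((s : ℝ) - 1) / ρ ≤ 1 := by
        rw [div_le_one hρ0]
        exact hsρ
      have h5 : ((s : ℝ) - 1) * (1 - 1 / ρ) = (s - 1) - (s - 1) / ρ := by ring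
      rw [h2, h3, h5]
      linarith
    have h2 := np_aux hK hn hd (s - 1) (by omega) _ h1
    rwa [Real.rpow_natCast] at h2

end Pool.Agent.helper95.IV
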